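import Pool.Agent.Lib.helper3.King

/-! One-player percolation games have a limit value. -/

open Filter Topology MeasureTheory Set

namespace Pool.Agent.H.MP_5b044e_pr

open Pool.Agent.Lib.helper3.King

variable {A Z : Type*} [AddCommGroup Z]

def pay (q : A → Z) (g : Z → A → ℝ) : Z → List A → ℝ
  | _, [] => 0
  | z, a :: l => g z a + pay q g (z + q a) l

variable {q : A → Z} {g : Z → A → ℝ} {C : ℝ}

lemma pay_append (l l' : List A) : ∀ z, pay q g z (l ++ l') = pay q g z l + pay q g (z + (l.map q).sum) l' := by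
  induction l with
  | nil => simp [pay]
  | cons a l ih => intro z; simp [pay, ih, add_assoc]

lemma pay_shift (y : Z) (l : List A) : ∀ z, pay q (fun z => g (y + z)) z l = pay q g (y + z) l := by
  induction l with
  | nil => simp [pay]
  | cons a l ih => intro z; simp [pay, ih, add_assoc]

lemma pay_neg (l : List A) : ∀ z, pay q (fun z a => -g z a) z l = -pay q g z l := by
  induction l with
  | nil => simp [pay]
  | cons a l ih => intro z; simp only [pay, ih]; ring

lemma pay_abs (hb : ∀ z a, |g z a| ≤ C) (l : List A) : ∀ z, |pay q g z l| ≤ C * l.length := by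
  induction l with
  | nil => simp [pay]
  | cons a l ih =>
    intro z
    simp only [pay, List.length_cons]
    push_cast
    linarith [abs_add_le (g z a) (pay q g (z + q a) l), hb z a, ih (z + q a)]

variable [Fintype A] [DecidableEq A]

abbrev Ls (c : A → ℕ) := {l : List A // ∀ a, l.count a = c a}

instance (c : A → ℕ) : Nonempty (Ls c) := by
  obtain ⟨l, hl⟩ := Quot.exists_rep (∑ a, c a • ({a} : Multiset A) : Multiset A)
  refine ⟨l, fun a => ?_⟩
  rw [← Multiset.coe_count, show (l : Multiset A) = _ from hl]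
  simp [Multiset.count_sum', Multiset.count_singleton]

lemma Ls.sum {c : A → ℕ} (l : Ls c) {M : Type*} [AddCommMonoid M] (f : A → M) :
    (l.1.map f).sum = ∑ a, c a • f a := by
  rw [Finset.sum_list_map_count, Finset.sum_subset (Finset.subset_univ _) fun a _ h => by
    simp [List.count_eq_zero_of_not_mem (by simpa using h : a ∉ l.1)]]
  simp [l.2]

lemma Ls.len {c : A → ℕ} (l : Ls c) : l.1.length = ∑ a, c a := by
  simpa using l.sum (M := ℕ) fun _ => 1

noncomputable def G (q : A → Z) (g : Z → A → ℝ) (z : Z) (c : A → ℕ) : ℝ := ⨆ l : Ls c, pay q g z l.1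

noncomputable def F (q : A → Z) (g : Z → A → ℝ) (z : Z) (n : ℕ) : ℝ :=
  ⨆ l : List.Vector A n, pay q g z l.toList

variable (hb : ∀ z a, |g z a| ≤ C)
include hb

lemma le_G (z : Z) {c : A → ℕ} (l : Ls c) : pay q g z l.1 ≤ G q g z c :=
  le_ciSup (f := fun l : Ls c => pay q g z l.1) ⟨C * (∑ a, c a : ℕ), by
    rintro - ⟨l, rfl⟩; exact l.len ▸ (abs_le.1 (pay_abs hb l.1 z)).2⟩ l

omit [Fintype A] [DecidableEq A] in
lemma le_F (z : Z) {n : ℕ} (l : List A) (h : l.length = n) : pay q g z l ≤ F q g z n :=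
  le_ciSup (f := fun l : List.Vector A n => pay q g z l.toList) ⟨C * n, by
    rintro - ⟨l, rfl⟩; simpa using (abs_le.1 (pay_abs hb l.toList z)).2⟩ ⟨l, h⟩

lemma G_abs (z : Z) (c : A → ℕ) : |G q g z c| ≤ C * (∑ a, c a : ℕ) := by
  obtain ⟨l⟩ : Nonempty (Ls c) := inferInstance
  exact abs_le.2 ⟨(l.len ▸ (abs_le.1 (pay_abs hb l.1 z)).1).trans (le_G hb z l),
    ciSup_le fun l => l.len ▸ (abs_le.1 (pay_abs hb l.1 z)).2⟩

lemma G_add (z : Z) (c c' : A → ℕ) :
    G q g z c + G q g (z + ∑ a, c a • q a) c' ≤ G q g z (c + c') := by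
  refine ciSup_add_ciSup_le fun l l' => ?_
  rw [← l.sum q, ← pay_append]
  exact le_G hb z ⟨l.1 ++ l'.1, fun a => by simp [l.2, l'.2]⟩

lemma conv [Nonempty A] (z : Z) (γ : (A → ℕ) → ℝ)
    (H : ∀ c, Tendsto (fun m : ℕ => G q g z (m • c) / m) atTop (𝓝 (γ c))) :
    ∃ L, Tendsto (fun n : ℕ => F q g z n / n) atTop (𝓝 L) := by
  obtain ⟨a0⟩ := ‹Nonempty A›
  have c0 : 0 ≤ C := (abs_nonneg _).trans (hb 0 a0)
  have gb : ∀ c, |γ c| ≤ C * (∑ a, c a : ℕ) := fun c =>
    le_of_tendsto' (H c).abs fun m => by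
      rw [abs_div, Nat.abs_cast]
      refine div_le_of_le_mul₀ m.cast_nonneg (by positivity) ((G_abs hb z _).trans_eq ?_)
      simp [← Finset.mul_sum]; ring
  let s := ⨆ c : {c : A → ℕ // 0 < ∑ a, c a}, γ c / (∑ a, c.1 a : ℕ)
  have ne : Nonempty {c : A → ℕ // 0 < ∑ a, c a} := ⟨⟨1, by simpa using Fintype.card_pos⟩⟩
  have bd : ∀ c : {c : A → ℕ // 0 < ∑ a, c a}, |γ c / (∑ a, c.1 a : ℕ)| ≤ C := fun c => by
    rw [abs_div, Nat.abs_cast]
    exact div_le_of_le_mul₀ (by positivity) c0 (gb c)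
  have ls : ∀ c : {c : A → ℕ // 0 < ∑ a, c a}, γ c / (∑ a, c.1 a : ℕ) ≤ s :=
    le_ciSup ⟨C, by rintro - ⟨c, rfl⟩; exact (abs_le.1 (bd c)).2⟩
  have sb : |s| ≤ C := abs_le.2 ⟨(abs_le.1 (bd ne.some)).1.trans (ls _), ciSup_le fun c => (abs_le.1 (bd c)).2⟩
  refine ⟨s, tendsto_order.2 ⟨fun b h => ?_, fun b h => ?_⟩⟩
  · obtain ⟨⟨c, k0⟩, hc⟩ := exists_lt_of_lt_ciSup h
    have k1 : (0 : ℝ) < (∑ a, c a : ℕ) := by exact_mod_cast k0
    rw [lt_div_iff₀ k1] at hc
    obtain ⟨e, e1, e2⟩ := exists_between hc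
    refine flo k0 (y := fun m => G q g z (m • c)) (E := C * (∑ a, c a : ℕ)) (c := e) (fun n => ?_) ?_
      (by rwa [lt_div_iff₀ k1])
    · refine sub_le_iff_le_add.2 (ciSup_le fun l => ?_)
      have a := le_F (q := q) hb z (n := n) (l.1 ++ List.replicate (n % ∑ a, c a) a0) (by
        simp [l.len, ← Finset.mul_sum, Nat.div_add_mod'])
      have b := (abs_le.1 (pay_abs (q := q) hb (List.replicate (n % ∑ a, c a) a0) (z + (l.1.map q).sum))).1
      have d : ((n % ∑ a, c a : ℕ) : ℝ) ≤ (∑ a, c a : ℕ) := by exact_mod_cast (Nat.mod_lt n k0).le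
      rw [pay_append] at a
      rw [List.length_replicate] at b
      nlinarith
    · filter_upwards [(H c).eventually_const_lt e2, eventually_gt_atTop 0] with m p m0
      exact ((lt_div_iff₀ (by positivity)).1 p).le
  · set B : ℝ := 1 + 2 * C * Fintype.card A
    have t1 : Tendsto (fun K : ℕ => s + 2 * B / K) atTop (𝓝 (s + 0)) :=
      (tendsto_const_div_atTop_nhds_zero_nat _).const_add _
    obtain ⟨K, hK, K0⟩ := ((t1.eventually_lt_const (by simpa using h)).and (eventually_gt_atTop 0)).exists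
    have ev : ∀ᶠ m : ℕ in atTop, ∀ c ∈ Fintype.piFinset fun _ : A => Finset.range (K + 1),
        G q g z (m • c) / m < γ c + 1 :=
      (eventually_all_finset _).2 fun c _ => (H c).eventually_lt_const (lt_add_one _)
    filter_upwards [((tendsto_add_atTop_nat 1).comp (Nat.tendsto_div_const_atTop K0.ne')).eventually ev,
      eventually_ge_atTop K] with n p nK
    have K1 : (0 : ℝ) < K := by positivity
    have n1 : (0 : ℝ) < n := by exact_mod_cast K0.trans_le nK
    have mK : ((n / K + 1 : ℕ) : ℝ) ≤ 2 * n / K := by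
      have : ((n / K : ℕ) : ℝ) ≤ n / K := Nat.cast_div_le
      have : 1 ≤ (n / K : ℝ) := (one_le_div K1).2 (by exact_mod_cast nK)
      push_cast; rw [mul_div_assoc]; linarith
    have nm : n < K * (n / K + 1) := Nat.lt_mul_div_succ n K0
    simp only [Function.comp] at p
    have m0 : 0 < n / K + 1 := Nat.succ_pos _
    generalize n / K + 1 = m at p mK nm m0
    have m1 : (0 : ℝ) < m := by positivity
    refine lt_of_le_of_lt ?_ hK
    rw [div_le_iff₀ n1]
    have : Nonempty (List.Vector A n) := ⟨List.Vector.replicate n a0⟩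
    refine ciSup_le fun l => ?_
    let c : A → ℕ := fun a => l.toList.count a / m + 1
    have c1 : ∀ a, l.toList.count a ≤ m * c a ∧ m * c a ≤ l.toList.count a + m := fun a =>
      ⟨(Nat.lt_mul_div_succ _ m0).le, by simpa [c, mul_add] using Nat.mul_div_le _ _⟩
    obtain ⟨l'⟩ : Nonempty (Ls fun a => m * c a - l.toList.count a) := inferInstance
    let L : Ls (m • c) := ⟨l.toList ++ l'.1, fun a => by simp [l'.2, (c1 a).1]⟩
    have a1 := le_G (q := q) hb z L
    have a2 := p c (Fintype.mem_piFinset.2 fun a => Finset.mem_range.2 (Nat.succ_lt_succ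
      ((Nat.div_lt_iff_lt_mul m0).2 (List.count_le_length.trans_lt (by simpa using nm)))))
    have a3 := ls ⟨c, Finset.sum_pos (fun _ _ => Nat.succ_pos _) Finset.univ_nonempty⟩
    have a4 : l'.1.length ≤ Fintype.card A * m := by
      rw [l'.len]
      simpa using Finset.sum_le_card_nsmul Finset.univ _ m fun a _ => by have := c1 a; omega
    have a5 : n + l'.1.length = m * ∑ a, c a := by simpa [L, ← Finset.mul_sum] using L.len
    have a6 := (abs_le.1 (pay_abs (q := q) hb l'.1 (z + (l.toList.map q).sum))).1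
    have k1 : (0 : ℝ) < (∑ a, c a : ℕ) := by
      exact_mod_cast Finset.sum_pos (fun _ _ => Nat.succ_pos _) Finset.univ_nonempty
    simp only [L, pay_append] at a1
    rw [div_lt_iff₀ m1] at a2
    rw [div_le_iff₀ k1] at a3
    have a7 : (n + l'.1.length : ℝ) = m * (∑ a, c a : ℕ) := by exact_mod_cast a5
    have a8 : (l'.1.length : ℝ) ≤ Fintype.card A * m := by exact_mod_cast a4
    have a9 : γ c * m ≤ s * (n + l'.1.length) := by rw [a7]; nlinarith
    have b1 : s * l'.1.length ≤ C * l'.1.length :=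
      mul_le_mul_of_nonneg_right (abs_le.1 sb).2 (by positivity)
    have b2 : B * m ≤ B * (2 * n / K) := mul_le_mul_of_nonneg_left mK (by positivity)
    have b3 := mul_le_mul_of_nonneg_left a8 c0
    rw [show (s + 2 * B / K) * n = s * n + B * (2 * n / K) by ring]
    simp only [B] at *
    linarith

omit hb

variable {Ω : Type*} [MeasurableSpace Ω] {P : Measure Ω} [IsProbabilityMeasure P] {τ : Z → Ω → Ω}
  {g : Ω → Z → A → ℝ}

lemma half [Nonempty A] (hτ : ∀ y, MeasurePreserving (τ y) P P) (hm : ∀ z a, Measurable fun ω => g ω z a)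
    (hb : ∀ ω z a, |g ω z a| ≤ C) (hs : ∀ y ω z, g (τ y ω) z = g ω (y + z)) (z : Z) :
    ∀ᵐ ω ∂P, ∃ L, Tendsto (fun n : ℕ => F q (g ω) z n / n) atTop (𝓝 L) := by
  have mp : ∀ (l : List A) z, Measurable fun ω => pay q (g ω) z l := fun l => by
    induction l with
    | nil => exact fun _ => measurable_const
    | cons a l ih => exact fun z => (hm z a).add (ih _)
  have it : ∀ y (n : ℕ) ω, g ((τ y)^[n] ω) = fun z => g ω (n • y + z) := fun y n => by
    induction n with
    | zero => simp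
    | succ n ih => intro ω; ext z; rw [Function.iterate_succ_apply', hs, ih, succ_nsmul, add_assoc]
  have k : ∀ c : A → ℕ, Sup (τ (∑ a, c a • q a)) (fun m ω => G q (g ω) z (m • c)) (C * (∑ a, c a : ℕ)) :=
    fun c => ⟨fun m => .iSup fun l => mp _ _, fun m ω => (G_abs (hb ω) z _).trans_eq (by
      simp [← Finset.mul_sum]; ring), fun n m ω => by
      have := G_add (q := q) (hb ω) z (n • c) (m • c)
      rw [← add_smul] at this
      simp only [G, it, pay_shift, add_comm z, Finset.smul_sum, smul_smul, Pi.smul_apply,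
        smul_eq_mul] at *
      exact this⟩
  filter_upwards [ae_all_iff.2 fun c => (k c).kingman (hτ _)] with ω h
  choose γ h using h
  exact conv (hb ω) z γ h

theorem main [Nonempty A] (hτ : ∀ y, MeasurePreserving (τ y) P P) (hm : ∀ z a, Measurable fun ω => g ω z a)
    (hb : ∀ ω z a, |g ω z a| ≤ C) (hs : ∀ y ω z, g (τ y ω) z = g ω (y + z)) (z : Z) :
    ∀ᵐ ω ∂P, (∃ L, Tendsto (fun n : ℕ => ⨆ l : List.Vector A n, pay q (g ω) z l.toList / n) atTop (𝓝 L)) ∧
      ∃ L, Tendsto (fun n : ℕ => ⨅ l : List.Vector A n, pay q (g ω) z l.toList / n) atTop (𝓝 L) := by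
  filter_upwards [half (q := q) hτ hm hb hs z, half (q := q) (g := fun ω z a => -g ω z a) hτ
    (fun z a => (hm z a).neg) (by simpa using hb) (fun y ω z => by simp [hs]) z] with ω ⟨L, h⟩ ⟨L', h'⟩
  refine ⟨⟨L, h.congr fun n => ?_⟩, -L', h'.neg.congr fun n => ?_⟩
  · simp only [F, div_eq_mul_inv]
    exact Real.iSup_mul_of_nonneg (by positivity) _
  · simp only [F, pay_neg, div_eq_mul_inv]
    rw [← Real.iInf_mul_of_nonneg (by positivity), ← neg_mul]
    simp only [iSup, iInf, Real.sInf_def, ← image_neg_eq_neg, ← range_comp']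

end Pool.Agent.H.MP_5b044e_pr
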